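import Mathlib

/-!
# An automorphism of order `p` of `k[x₁, …, xₙ]` (`n ≥ 3`) which is not exponential

Write `x, y, z` for three of the variables, and put `u = y x + z ^ p - z` and `F = 1 + y u`.
The automorphism `φ` is given by

* `φ y = y`,
* `φ z = z + F`,
* `φ x = x + (u - y ^ (p - 1) u ^ p)`,

and fixes all other variables.  It fixes `u`, and it has order `p`.
If `φ = ε_a` for a `G_a`-action `ε` and an invariant `a`, then `F` divides `ε F`, hence `F` is
invariant, hence (factorial closedness) `y` and `u` are invariant.  Then `y` divides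
`ε z - z`, so that `y` divides `ε_a z - z = F = 1 + y u`, which is absurd.
-/

set_option autoImplicit false

set_option linter.unusedSectionVars false
set_option linter.unusedVariables false
set_option linter.unusedSimpArgs false

open Polynomial

namespace Pool.Agent.Results.MP_038775_ag.OrderPNotExponential

/-- A `G_a`-action on the `k`-algebra `B`: a `k`-algebra homomorphism `ε : B → B[T]` such that,
writing `ε b = ∑ bᵢ Tⁱ`,

* (A1) `b₀ = b`;
* (A2) `∑ ε (bᵢ) Uⁱ = ∑ bᵢ (T + U)ⁱ` in `B[T][U]`. Here `B[T, U]` is `(B[T])[U]`, so that the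
  inner variable `T` is `C X` and the outer variable `U` is `X`. -/
structure GaAction (k B : Type*) [CommRing k] [CommRing B] [Algebra k B] where
  /-- The coaction `B → B[T]`. -/
  toAlgHom : B →ₐ[k] B[X]
  coeff_zero' : ∀ b : B, (toAlgHom b).coeff 0 = b
  add' : ∀ b : B, ((toAlgHom b).sum fun i c => C (toAlgHom c) * X ^ i : B[X][X]) =
    (toAlgHom b).sum fun i c => C (C c) * (C X + X) ^ i

/-- An automorphism `φ` of the `k`-algebra `B` is exponential if there are a `G_a`-action `ε` on
`B` and an element `a` of the invariant ring `B^ε = {b | ε b = b}` such that `φ = ε_a`, that is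
`φ b = (ε b)|_{T = a}` for all `b`. -/
def IsExponential {k B : Type*} [CommRing k] [CommRing B] [Algebra k B] (φ : B ≃ₐ[k] B) : Prop :=
  ∃ (ε : GaAction k B) (a : B), ε.toAlgHom a = C a ∧ ∀ b : B, φ b = (ε.toAlgHom b).eval a

section General

variable {k B : Type*} [CommRing k] [CommRing B] [Algebra k B]

/-- (A2) after the substitution of `a` for `T`. -/
lemma add_left (ε : GaAction k B) (a b : B) :
    ((ε.toAlgHom b).map ((Polynomial.evalRingHom a).comp (ε.toAlgHom : B →+* B[X])) : B[X]) =
      (ε.toAlgHom b).sum fun i c => C c * (C a + X) ^ i := by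
  have h := congrArg (Polynomial.map (Polynomial.evalRingHom a)) (ε.add' b)
  rw [Polynomial.sum_def, Polynomial.sum_def, Polynomial.map_sum, Polynomial.map_sum] at h
  simp only [Polynomial.map_mul, Polynomial.map_C, Polynomial.map_pow, Polynomial.map_X,
    Polynomial.map_add, Polynomial.coe_evalRingHom, Polynomial.eval_C, Polynomial.eval_X] at h
  rw [Polynomial.sum_def, ← h]
  conv_lhs => rw [(ε.toAlgHom b).as_sum_support_C_mul_X_pow]
  rw [Polynomial.map_sum]
  simp

/-- (A2) after the substitution of `a` for `U`. -/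
lemma add_right (ε : GaAction k B) (a b : B) (ha : ε.toAlgHom a = C a) :
    ε.toAlgHom ((ε.toAlgHom b).eval a) = (ε.toAlgHom b).sum fun i c => C c * (C a + X) ^ i := by
  have h := congrArg (Polynomial.eval (C a)) (ε.add' b)
  rw [Polynomial.sum_def, Polynomial.sum_def, Polynomial.eval_finsetSum,
    Polynomial.eval_finsetSum] at h
  simp only [Polynomial.eval_mul, Polynomial.eval_C, Polynomial.eval_pow, Polynomial.eval_X,
    Polynomial.eval_add] at h
  rw [Polynomial.sum_def, Polynomial.eval_eq_sum, Polynomial.sum_def, map_sum]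
  simp only [map_mul, map_pow, ha]
  rw [h]
  simp [add_comm]

/-- An exponential automorphism commutes with its `G_a`-action. -/
lemma comm (ε : GaAction k B) (φ : B ≃ₐ[k] B) (a : B) (ha : ε.toAlgHom a = C a)
    (hφ : ∀ b : B, φ b = (ε.toAlgHom b).eval a) (b : B) :
    ε.toAlgHom (φ b) = (ε.toAlgHom b).map (φ : B →+* B) := by
  have h1 : (φ : B →+* B) = (Polynomial.evalRingHom a).comp (ε.toAlgHom : B →+* B[X]) := by
    ext b
    simpa using hφ b
  rw [h1, add_left, hφ, add_right ε a b ha]

/-- The leading coefficient of `ε b` is invariant. -/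
lemma leadingCoeff_inv (ε : GaAction k B) (b : B) :
    ε.toAlgHom (ε.toAlgHom b).leadingCoeff = C (ε.toAlgHom b).leadingCoeff := by
  have h := congrArg (fun q : B[X][X] => q.coeff (ε.toAlgHom b).natDegree) (ε.add' b)
  simp only [Polynomial.sum_def, Polynomial.finsetSum_coeff, Polynomial.coeff_C_mul,
    Polynomial.coeff_X_pow] at h
  by_cases hb : ε.toAlgHom b = 0
  · simp [hb]
  have hmem : (ε.toAlgHom b).natDegree ∈ (ε.toAlgHom b).support :=
    Polynomial.natDegree_mem_support_of_nonzero hb
  rw [Finset.sum_eq_single_of_mem _ hmem, Finset.sum_eq_single_of_mem _ hmem] at h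
  · simp only [if_true, mul_one] at h
    rw [Polynomial.leadingCoeff, h]
    have h2 : ((C X + X : B[X][X]) ^ (ε.toAlgHom b).natDegree).coeff (ε.toAlgHom b).natDegree
        = 1 := by
      rw [add_comm]
      have := Polynomial.coeff_X_add_C_pow (X : B[X]) (ε.toAlgHom b).natDegree
        (ε.toAlgHom b).natDegree
      rw [this]
      simp
    rw [h2, mul_one]
  · intro i hi hne
    have hlt : i < (ε.toAlgHom b).natDegree :=
      lt_of_le_of_ne (Polynomial.le_natDegree_of_mem_supp i hi) hne
    rw [add_comm (C X : B[X][X]) X, Polynomial.coeff_X_add_C_pow, Nat.choose_eq_zero_of_lt hlt]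
    simp
  · intro i _ hne
    rw [if_neg (Ne.symm hne), mul_zero]

variable [IsDomain B]

lemma ne_zero (ε : GaAction k B) {b : B} (hb : b ≠ 0) : ε.toAlgHom b ≠ 0 := by
  intro h
  apply hb
  have := ε.coeff_zero' b
  rw [h] at this
  simpa using this.symm

/-- Invariance in terms of the degree. -/
lemma inv_of_natDegree (ε : GaAction k B) {b : B} (hb : (ε.toAlgHom b).natDegree = 0) :
    ε.toAlgHom b = C b := by
  rw [Polynomial.eq_C_of_natDegree_eq_zero hb, ε.coeff_zero']

/-- The invariant ring of a `G_a`-action is factorially closed. -/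
lemma inv_left_of_mul (ε : GaAction k B) {b c : B} (hbc : b * c ≠ 0)
    (h : ε.toAlgHom (b * c) = C (b * c)) : ε.toAlgHom b = C b := by
  have hb : b ≠ 0 := left_ne_zero_of_mul hbc
  have hc : c ≠ 0 := right_ne_zero_of_mul hbc
  have h1 := congrArg Polynomial.natDegree h
  rw [map_mul, Polynomial.natDegree_mul (ne_zero ε hb) (ne_zero ε hc),
    Polynomial.natDegree_C] at h1
  exact inv_of_natDegree ε (by omega)

/-- If `F ≠ 0` divides all the coefficients of `ε F`, then `F` is invariant. -/
lemma inv_of_dvd (ε : GaAction k B) {F : B} (hF : F ≠ 0)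
    (h : ∀ i, F ∣ (ε.toAlgHom F).coeff i) : ε.toAlgHom F = C F := by
  obtain ⟨G, hG⟩ := h (ε.toAlgHom F).natDegree
  have h1 := leadingCoeff_inv ε F
  have h2 : (ε.toAlgHom F).leadingCoeff = F * G := hG
  rw [h2] at h1
  refine inv_left_of_mul ε ?_ h1
  rw [← h2]
  exact Polynomial.leadingCoeff_ne_zero.mpr (ne_zero ε hF)

/-- The abstract form of the argument: if `y` is prime in the domain `B` of characteristic `p`,
`u = y x + z ^ p - z` and `φ` is an automorphism with `φ z = z + (1 + y u)` such that `1 + y u`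
divides `φ b - b` for all `b`, then `φ` is not exponential. -/
lemma not_isExponential (p : ℕ) (hp : p.Prime) [CharP B p] (x y z u : B)
    (hu : u = y * x + z ^ p - z) (hu0 : u ≠ 0) (hy : Prime y) (φ : B ≃ₐ[k] B)
    (hφz : φ z = z + (1 + y * u)) (hdvd : ∀ b, (1 + y * u) ∣ φ b - b) : ¬ IsExponential φ := by
  rintro ⟨ε, a, ha, hφ⟩
  have hF0 : (1 + y * u) ≠ 0 := by
    intro h
    apply hy.not_isUnit
    refine IsUnit.of_mul_eq_one (-u) ?_
    linear_combination -h
  -- `F` divides all the coefficients of `ε F`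
  have hF : ε.toAlgHom (1 + y * u) = C (1 + y * u) := by
    refine inv_of_dvd ε hF0 fun i => ?_
    have h1 : ε.toAlgHom (1 + y * u) = (ε.toAlgHom z).map (φ : B →+* B) - ε.toAlgHom z := by
      rw [← comm ε φ a ha hφ z, hφz, map_add ε.toAlgHom z (1 + y * u)]
      ring
    rw [h1, Polynomial.coeff_sub, Polynomial.coeff_map]
    exact hdvd _
  have hyu : ε.toAlgHom (y * u) = C (y * u) := by
    have : y * u = (1 + y * u) - 1 := by ring
    rw [this, map_sub, hF, map_one, map_sub, map_one]
  have hyinv : ε.toAlgHom y = C y := inv_left_of_mul ε (mul_ne_zero hy.ne_zero hu0) hyu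
  have huinv : ε.toAlgHom u = C u := by
    rw [mul_comm] at hyu
    exact inv_left_of_mul ε (mul_ne_zero hu0 hy.ne_zero) hyu
  -- `y` divides `ε z - z`
  have hchar : Fact p.Prime := ⟨hp⟩
  have hs : ∀ i, y ∣ (ε.toAlgHom z - C z).coeff i := by
    have hprime : (Ideal.span {y}).IsPrime := (Ideal.span_singleton_prime hy.ne_zero).mpr hy
    set q : B →+* B ⧸ Ideal.span {y} := Ideal.Quotient.mk _ with hq
    have hqy : q y = 0 := by
      rw [hq, Ideal.Quotient.eq_zero_iff_mem]
      exact Ideal.mem_span_singleton_self y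
    have key : C y * (ε.toAlgHom x - C x) + (ε.toAlgHom z - C z) ^ p - (ε.toAlgHom z - C z) = 0 := by
      rw [sub_pow_char]
      have h2 : ε.toAlgHom u = C y * ε.toAlgHom x + ε.toAlgHom z ^ p - ε.toAlgHom z := by
        rw [hu, map_sub, map_add, map_mul, map_pow, hyinv]
      have h3 : (C u : B[X]) = C y * C x + C z ^ p - C z := by
        rw [hu, map_sub, map_add, map_mul, map_pow]
      rw [huinv, h3] at h2
      linear_combination -h2
    have key2 := congrArg (Polynomial.map q) key
    rw [Polynomial.map_sub, Polynomial.map_add, Polynomial.map_mul, Polynomial.map_C, hqy,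
      Polynomial.map_pow, map_zero, zero_mul, zero_add, Polynomial.map_zero] at key2
    set s := Polynomial.map q (ε.toAlgHom z - C z) with hsdef
    have hdeg : s.natDegree = 0 := by
      have h4 : s ^ p = s := sub_eq_zero.mp key2
      have h5 := congrArg Polynomial.natDegree h4
      rw [Polynomial.natDegree_pow] at h5
      have h6 := hp.two_le
      by_contra h7
      have h8 : 0 < s.natDegree := Nat.pos_of_ne_zero h7
      nlinarith
    have hcoeff0 : s.coeff 0 = 0 := by
      rw [hsdef, Polynomial.coeff_map, Polynomial.coeff_sub, ε.coeff_zero',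
        Polynomial.coeff_C_zero, sub_self, map_zero]
    have hs0 : s = 0 := by
      rw [Polynomial.eq_C_of_natDegree_eq_zero hdeg, hcoeff0, map_zero]
    intro i
    have h9 : q ((ε.toAlgHom z - C z).coeff i) = 0 := by
      rw [← Polynomial.coeff_map, ← hsdef, hs0, Polynomial.coeff_zero]
    rw [hq, Ideal.Quotient.eq_zero_iff_mem, Ideal.mem_span_singleton] at h9
    exact h9
  -- hence `y` divides `φ z - z = 1 + y u`
  have hdiv : y ∣ 1 + y * u := by
    have h1 : (1 + y * u) = (ε.toAlgHom z - C z).eval a := by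
      rw [Polynomial.eval_sub, ← hφ, hφz, Polynomial.eval_C]
      ring
    rw [h1, Polynomial.eval_eq_sum, Polynomial.sum_def]
    exact Finset.dvd_sum fun i _ => Dvd.dvd.mul_right (hs i) _
  apply hy.not_isUnit
  rw [isUnit_iff_dvd_one]
  have h2 : (1 : B) = (1 + y * u) - y * u := by ring
  rw [h2]
  exact dvd_sub hdiv (Dvd.intro u rfl)

end General

section Construction

open MvPolynomial

variable {k : Type*} [Field k] {n : ℕ}

/-- The polynomial `u = y x + z ^ p - z`. -/
noncomputable def uu (p : ℕ) (i j l : Fin n) : MvPolynomial (Fin n) k :=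
  X j * X i + X l ^ p - X l

/-- The endomorphism with time parameter `t`: `x ↦ x + t (u - y ^ (p - 1) u ^ p)`,
`z ↦ z + t (1 + y u)`. -/
noncomputable def phi (p : ℕ) (i j l : Fin n) (t : k) :
    MvPolynomial (Fin n) k →ₐ[k] MvPolynomial (Fin n) k :=
  MvPolynomial.aeval fun m =>
    if m = i then X i + MvPolynomial.C t * (uu p i j l - X j ^ (p - 1) * uu p i j l ^ p)
    else if m = l then X l + MvPolynomial.C t * (1 + X j * uu p i j l)
    else X m

variable (p : ℕ) [hp : Fact p.Prime] [CharP k p] (i j l : Fin n)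

lemma phi_i (t : k) : phi p i j l t (X i) =
    X i + MvPolynomial.C t * (uu p i j l - X j ^ (p - 1) * uu p i j l ^ p) := by
  simp [phi]

lemma phi_l (hli : l ≠ i) (t : k) : phi p i j l t (X l) =
    X l + MvPolynomial.C t * (1 + X j * uu p i j l) := by
  simp [phi, hli]

lemma phi_other (t : k) {m : Fin n} (h1 : m ≠ i) (h2 : m ≠ l) :
    phi p i j l t (X m) = X m := by
  simp [phi, h1, h2]

lemma phi_uu (hij : i ≠ j) (hli : l ≠ i) (hjl : j ≠ l) (t : k) (ht : t ^ p = t) :
    phi p i j l t (uu p i j l) = uu p i j l := by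
  have hchar : CharP (MvPolynomial (Fin n) k) p := inferInstance
  conv_lhs => rw [uu]
  rw [map_sub, map_add, map_mul, map_pow, phi_i, phi_l p i j l hli,
    phi_other p i j l t hij.symm hjl, add_pow_char, mul_pow, add_pow_char, one_pow, mul_pow,
    ← map_pow, ht]
  have hpp : (X j : MvPolynomial (Fin n) k) ^ p = X j * X j ^ (p - 1) := by
    rw [← pow_succ', Nat.sub_add_cancel hp.out.one_le]
  have hu : (uu p i j l : MvPolynomial (Fin n) k) = X j * X i + X l ^ p - X l := rfl
  rw [hpp]
  linear_combination -hu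

lemma phi_comp (hij : i ≠ j) (hli : l ≠ i) (hjl : j ≠ l) (s t : k) (hs : s ^ p = s) :
    (phi p i j l s).comp (phi p i j l t) = phi p i j l (s + t) := by
  apply MvPolynomial.algHom_ext
  intro m
  rw [AlgHom.comp_apply]
  have hCs : ∀ (c : k), phi p i j l s (MvPolynomial.C c) = MvPolynomial.C c := by
    intro c
    exact (phi p i j l s).commutes c
  by_cases h1 : m = i
  · subst h1
    rw [phi_i, phi_i, map_add, phi_i, map_mul, map_sub, map_mul, map_pow, map_pow,
      phi_uu p m j l hij hli hjl s hs, phi_other p m j l s hij.symm hjl, hCs, map_add]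
    ring
  · by_cases h2 : m = l
    · subst h2
      rw [phi_l p i j m hli, phi_l p i j m hli, map_add, phi_l p i j m hli, map_mul, map_add,
        map_mul, map_one, phi_uu p i j m hij hli hjl s hs, phi_other p i j m s hij.symm hjl, hCs,
        map_add]
      ring
    · rw [phi_other p i j l t h1 h2, phi_other p i j l s h1 h2, phi_other p i j l _ h1 h2]

lemma phi_zero : phi p i j l (0 : k) = AlgHom.id k _ := by
  apply MvPolynomial.algHom_ext
  intro m
  simp only [phi, MvPolynomial.aeval_X, map_zero, zero_mul, add_zero, AlgHom.id_apply]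
  split_ifs with h1 h2
  · rw [h1]
  · rw [h2]
  · rfl

/-- The automorphism. -/
noncomputable def phiEquiv (hij : i ≠ j) (hli : l ≠ i) (hjl : j ≠ l) :
    MvPolynomial (Fin n) k ≃ₐ[k] MvPolynomial (Fin n) k :=
  AlgEquiv.ofAlgHom (phi p i j l 1) (phi p i j l (-1))
    (by rw [phi_comp p i j l hij hli hjl 1 (-1) (one_pow p), add_neg_cancel, phi_zero])
    (by
      have h : ((-1 : k)) ^ p = -1 := by
        have := sub_pow_char (R := k) (p := p) 0 1
        simpa [hp.out.ne_zero] using this
      rw [phi_comp p i j l hij hli hjl (-1) 1 h, neg_add_cancel, phi_zero])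

lemma phiEquiv_apply (hij : i ≠ j) (hli : l ≠ i) (hjl : j ≠ l) (b : MvPolynomial (Fin n) k) :
    phiEquiv p i j l hij hli hjl b = phi p i j l 1 b := rfl

lemma phiEquiv_pow (hij : i ≠ j) (hli : l ≠ i) (hjl : j ≠ l) (m : ℕ)
    (b : MvPolynomial (Fin n) k) :
    ((phiEquiv p i j l hij hli hjl) ^ m) b = phi p i j l (m : k) b := by
  induction m generalizing b with
  | zero => simp [phi_zero]
  | succ m ih =>
    rw [pow_succ', AlgEquiv.mul_apply, ih, phiEquiv_apply, ← AlgHom.comp_apply,
      phi_comp p i j l hij hli hjl (1 : k) (m : k) (one_pow p)]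
    push_cast
    rw [add_comm]

lemma uu_ne_zero (hij : i ≠ j) (hli : l ≠ i) (hjl : j ≠ l) :
    (uu p i j l : MvPolynomial (Fin n) k) ≠ 0 := by
  intro h
  have h2 := congrArg (MvPolynomial.eval (fun m => if m = l then (0 : k) else 1)) h
  simp [uu, hij, hli, hjl, hp.out.ne_zero] at h2
  simp [hli.symm] at h2

lemma one_add_ne_zero' (hij : i ≠ j) (hli : l ≠ i) (hjl : j ≠ l) :
    (1 + X j * uu p i j l : MvPolynomial (Fin n) k) ≠ 0 := by
  intro h
  have h2 := congrArg (MvPolynomial.eval (fun _ => (0 : k))) h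
  simp at h2

/-- In characteristic `p`, `1 + w` divides `w (1 - w ^ (p - 1))`. -/
lemma one_add_dvd {R : Type*} [CommRing R] [CharP R p] (w : R) :
    (1 + w) ∣ 1 - w ^ (p - 1) := by
  have h1 : (w - (-1)) ∣ w ^ (p - 1) - (-1) ^ (p - 1) := sub_dvd_pow_sub_pow w (-1) (p - 1)
  have h2 : ((-1 : R)) ^ (p - 1) = 1 := by
    rcases hp.out.eq_two_or_odd' with h | h
    · subst h
      have h3 : (2 : R) = 0 := by
        have := CharP.cast_eq_zero R 2
        simpa using this
      have h4 : (-1 : R) = 1 := by linear_combination -h3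
      rw [h4, one_pow]
    · exact Even.neg_one_pow (Nat.Odd.sub_odd h odd_one)
  rw [h2] at h1
  have h3 : (1 + w) = w - (-1) := by ring
  rw [h3]
  have h4 : 1 - w ^ (p - 1) = -(w ^ (p - 1) - 1) := by ring
  rw [h4]
  exact (dvd_neg).mpr h1

lemma dvd_phi (hij : i ≠ j) (hli : l ≠ i) (hjl : j ≠ l) (b : MvPolynomial (Fin n) k) :
    (1 + X j * uu p i j l : MvPolynomial (Fin n) k) ∣ phi p i j l 1 b - b := by
  induction b using MvPolynomial.induction_on with
  | C a =>
    have : phi p i j l (1 : k) (MvPolynomial.C a) = MvPolynomial.C a := (phi p i j l 1).commutes a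
    rw [this, sub_self]
    exact dvd_zero _
  | add f g hf hg =>
    rw [map_add]
    have : phi p i j l 1 f + phi p i j l 1 g - (f + g) =
      (phi p i j l 1 f - f) + (phi p i j l 1 g - g) := by ring
    rw [this]
    exact dvd_add hf hg
  | mul_X f m hf =>
    rw [map_mul]
    have : phi p i j l 1 f * phi p i j l 1 (X m) - f * X m =
      (phi p i j l 1 f - f) * phi p i j l 1 (X m) + f * (phi p i j l 1 (X m) - X m) := by ring
    rw [this]
    refine dvd_add (Dvd.dvd.mul_right hf _) (Dvd.dvd.mul_left ?_ _)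
    by_cases h1 : m = i
    · subst h1
      rw [phi_i, map_one, one_mul, add_sub_cancel_left]
      have hpp : (uu p m j l : MvPolynomial (Fin n) k) ^ p = uu p m j l * uu p m j l ^ (p - 1) := by
        rw [← pow_succ', Nat.sub_add_cancel hp.out.one_le]
      have h2 : (uu p m j l - X j ^ (p - 1) * uu p m j l ^ p : MvPolynomial (Fin n) k) =
        uu p m j l * (1 - (X j * uu p m j l) ^ (p - 1)) := by
        rw [hpp, mul_pow]
        ring
      rw [h2]
      exact Dvd.dvd.mul_left (one_add_dvd p _) _
    · by_cases h2 : m = l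
      · subst h2
        rw [phi_l p i j m hli, map_one, one_mul, add_sub_cancel_left]
      · rw [phi_other p i j l 1 h1 h2, sub_self]
        exact dvd_zero _

end Construction

/-- For every prime `p`, every field `k` of characteristic `p` and every `n ≥ 3`, the polynomial
ring `k[x₁, …, xₙ]` has an automorphism of order `p` which is not exponential. -/
theorem result.{u} : ∀ (p : ℕ), p.Prime → ∀ (k : Type u) [Field k] [CharP k p] (n : ℕ), 3 ≤ n →
    ∃ φ : MvPolynomial (Fin n) k ≃ₐ[k] MvPolynomial (Fin n) k,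
      orderOf φ = p ∧ ¬ IsExponential φ := by
  intro p hp k _ _ n hn
  have : Fact p.Prime := ⟨hp⟩
  obtain ⟨i, j, l, hij, hli, hjl⟩ : ∃ i j l : Fin n, i ≠ j ∧ l ≠ i ∧ j ≠ l := by
    refine ⟨⟨0, by omega⟩, ⟨1, by omega⟩, ⟨2, by omega⟩, ?_, ?_, ?_⟩ <;> simp [Fin.ext_iff]
  refine ⟨phiEquiv p i j l hij hli hjl, ?_, ?_⟩
  · apply orderOf_eq_prime
    · ext b : 1
      rw [phiEquiv_pow, CharP.cast_eq_zero, phi_zero]
      rfl
    · intro h
      have h1 := congrArg (fun ψ : MvPolynomial (Fin n) k ≃ₐ[k] MvPolynomial (Fin n) k =>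
        ψ (MvPolynomial.X l)) h
      simp only [phiEquiv_apply, AlgEquiv.one_apply] at h1
      rw [phi_l p i j l hli, map_one, one_mul] at h1
      exact one_add_ne_zero' (k := k) p i j l hij hli hjl (by linear_combination h1)
  · have : CharP (MvPolynomial (Fin n) k) p := inferInstance
    refine not_isExponential p hp (MvPolynomial.X i) (MvPolynomial.X j) (MvPolynomial.X l)
      (uu p i j l) rfl (uu_ne_zero p i j l hij hli hjl) (MvPolynomial.X_prime) _ ?_ ?_
    · rw [phiEquiv_apply, phi_l p i j l hli, map_one, one_mul]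
    · intro b
      rw [phiEquiv_apply]
      exact dvd_phi p i j l hij hli hjl b

end Pool.Agent.Results.MP_038775_ag.OrderPNotExponential
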